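import Pool.Agent.helper67.DL.SpecG

/-!
Project dl (MP_4caea3_gt): module BS, stability of the rank two part.
-/

namespace Pool.Agent.DL

open Matrix Complex
open scoped ComplexOrder Manifold ContDiff Topology

noncomputable section

theorem BS (hEX : EX_stmt) : BS_stmt := by
  intro X _ _ D hD a t ha ht
  have ha0 : 0 < a := by linarith
  have haC : (a : ℂ) ≠ 0 := by exact_mod_cast ha0.ne'
  have htC : (t : ℂ) ≠ 0 := by exact_mod_cast ht.ne'
  obtain ⟨-, -, -, -, -, -, -, -, -, hE1, -, -⟩ := hEX X D hD a t ha0 ht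
  refine ⟨⟨by norm_num, ?_⟩, ⟨by norm_num, ?_⟩⟩
  · intro m hm1 hm2 F hF G hG hinj d d' hd hd'
    obtain rfl : m = 1 := by omega
    exfalso
    have hz0 : (1 / (a : ℂ)) ∈ Metric.ball (0 : ℂ) (1 / 2) := by
      rw [mem_ball_zero_iff, norm_div, Complex.norm_real, Real.norm_eq_abs, abs_of_pos ha0, norm_one,
        div_lt_div_iff₀ ha0 (by norm_num)]
      linarith
    obtain ⟨k, hk⟩ := hF.cov.2.1 (D.e0.symm (1 / (a : ℂ)))
    have hUk : IsOpen (F.C.U k) := hF.cov.1 k
    have hV : IsOpen (D.e0.target ∩ D.e0.symm ⁻¹' (D.U0 ∩ F.C.U k)) :=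
      D.e0.isOpen_inter_preimage_symm (hD.open0.inter hUk)
    have hzV : (1 / (a : ℂ)) ∈ D.e0.target ∩ D.e0.symm ⁻¹' (D.U0 ∩ F.C.U k) :=
      ⟨hD.e0t hz0, (hD.e0z _ hz0).1, hk⟩
    have hg : ∀ b : Fin 2, DifferentiableAt ℂ (fun z => G false k (D.e0.symm z) b 0) (1 / (a : ℂ)) := by
      intro b
      exact (hG.holo false k b 0 D.e0 hD.e0a).differentiableAt (hV.mem_nhds hzV)
    have rel : ∀ z ∈ (D.e0.target ∩ D.e0.symm ⁻¹' (D.U0 ∩ F.C.U k)) ∩ Metric.ball (0 : ℂ) (1 / 2),
        G false k (D.e0.symm z) 0 0 ^ 2 = qq t (a * z) * G false k (D.e0.symm z) 1 0 ^ 2 := by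
      rintro z ⟨⟨hz1, hz2, hz3⟩, hz4⟩
      obtain ⟨h1, h2⟩ := hE1 _ hz2
      rw [(hD.e0z z hz4).2.1] at h1 h2
      have hc := hG.comm false k (D.e0.symm z) ⟨hz2, hz3⟩
      have hA : (BV D a t).A false (D.e0.symm z) = !![ss t (a * z), qq t (a * z); 1, ss t (a * z)] := by
        rw [← h1, ← h2]
        rfl
      rw [hA] at hc
      have e0 := congr_fun (congr_fun hc 0) 0
      have e1 := congr_fun (congr_fun hc 1) 0
      simp only [Matrix.mul_apply, Matrix.smul_apply, Fin.sum_univ_two, Finset.univ_unique,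
        Fin.default_eq_zero, Finset.sum_singleton, smul_eq_mul, Matrix.of_apply, Matrix.cons_val_zero,
        Matrix.cons_val_one, Matrix.cons_val'] at e0 e1
      generalize G false k (D.e0.symm z) 0 0 = g0 at *
      generalize G false k (D.e0.symm z) 1 0 = g1 at *
      generalize F.A k (D.e0.symm z) 0 0 = f at *
      generalize quo (F.C.η k) ((BV D a t).C.η false) 1 (D.e0.symm z) = c at *
      linear_combination g0 * e1 - g1 * e0
    have hq : HasDerivAt (fun z : ℂ => qq t (a * z)) (-(2 * a * (t : ℂ) ^ 2)) (1 / (a : ℂ)) := by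
      have h := ((((hasDerivAt_id (1 / (a : ℂ))).const_mul (a : ℂ)).fun_pow 2).const_sub 1).const_mul ((t : ℂ) ^ 2)
      have hval : (t : ℂ) ^ 2 * -(((2 : ℕ) : ℂ) * (a * id (1 / (a : ℂ))) ^ (2 - 1) * (a * 1)) =
          -(2 * a * (t : ℂ) ^ 2) := by
        simp only [id]
        rw [mul_one_div_cancel haC]
        push_cast
        ring
      rw [hval] at h
      exact h
    have hL := (hg 0).hasDerivAt.fun_pow 2
    have hR := hq.fun_mul ((hg 1).hasDerivAt.fun_pow 2)
    have hev : (fun z => G false k (D.e0.symm z) 0 0 ^ 2) =ᶠ[𝓝 (1 / (a : ℂ))]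
        fun z => qq t (a * z) * G false k (D.e0.symm z) 1 0 ^ 2 := by
      filter_upwards [(hV.inter Metric.isOpen_ball).mem_nhds ⟨hzV, hz0⟩] with z hz
      exact rel z hz
    have heq := hL.unique (hR.congr_of_eventuallyEq hev)
    have hqz : qq t (a * (1 / (a : ℂ))) = 0 := by
      rw [mul_one_div_cancel haC]
      simp [qq]
    have hr0 := rel _ ⟨hzV, hz0⟩
    rw [hqz, zero_mul] at hr0
    have hg00 : G false k (D.e0.symm (1 / (a : ℂ))) 0 0 = 0 := by
      exact pow_eq_zero_iff (two_ne_zero) |>.mp hr0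
    have hg10 : G false k (D.e0.symm (1 / (a : ℂ))) 1 0 = 0 := by
      simp only [hg00, hqz] at heq
      have h2 : (2 * a * (t : ℂ) ^ 2) * G false k (D.e0.symm (1 / (a : ℂ))) 1 0 ^ 2 = 0 := by
        linear_combination heq
      have h3 : (2 * a * (t : ℂ) ^ 2) ≠ 0 := by
        refine mul_ne_zero (mul_ne_zero two_ne_zero haC) (pow_ne_zero _ htC)
      exact pow_eq_zero_iff (two_ne_zero) |>.mp ((mul_eq_zero.mp h2).resolve_left h3)
    have hGz : G false k (D.e0.symm (1 / (a : ℂ))) = 0 := by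
      ext i j
      fin_cases i <;> fin_cases j
      · exact hg00
      · exact hg10
    have hi := hinj false k (D.e0.symm (1 / (a : ℂ))) ⟨(hD.e0z _ hz0).1, hk⟩
    rw [hGz] at hi
    have h01 : (0 : Fin 1 → ℂ) = 1 := hi (by simp)
    exact zero_ne_one (congr_fun h01 0)
  · intro m hm1 hm2
    omega

end

end Pool.Agent.DL
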