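import Pool.Agent.helper67.DL.SpecG

/-!
Project dl (MP_4caea3_gt): module HL, the local data of a harmonic metric of the Hitchin section.
-/

namespace Pool.Agent.DL

open Matrix Complex
open scoped ComplexOrder Manifold ContDiff

noncomputable section

theorem HL (hGC : GC_stmt) (hEX : EX_stmt) : HL_stmt := by
  intro X _ _ D hT hD a t R ht hR ha H hH
  have ha0 : 0 < a := by rw [ha]; linarith
  have haC : (a : ℂ) ≠ 0 := by exact_mod_cast ha0.ne'
  obtain ⟨-, -, -, -, -, -, -, -, -, hE1, -, hE2⟩ := hEX X D hD a t ha0 ht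
  have hmem : ∀ z ∈ Metric.ball (0 : ℂ) (R + 2), z / (a : ℂ) ∈ Metric.ball (0 : ℂ) (1 / 2) := by
    intro z hz
    rw [mem_ball_zero_iff] at hz ⊢
    rw [norm_div, Complex.norm_real, Real.norm_eq_abs, abs_of_pos ha0, div_lt_iff₀ ha0, ha]
    linarith
  have hA : ∀ x ∈ D.U0, (hitS (cov D a) (q2F D a t) (q3F D a t)).A false x = AA t (a * D.ζ x) := by
    intro x hx
    obtain ⟨h1, h2⟩ := hE1 x hx
    obtain ⟨h3, h4⟩ := hE2 false x hx
    show !![0, quo (q2F D a t) ((cov D a).η false) 2 x / 2, quo (q3F D a t) ((cov D a).η false) 3 x;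
      1, 0, quo (q2F D a t) ((cov D a).η false) 2 x / 2; 0, 1, 0] = AA t (a * D.ζ x)
    rw [h3, h4, h1, h2]
    rfl
  have hopen : IsOpen (D.e0.target ∩ D.e0.symm ⁻¹' D.U0) :=
    D.e0.isOpen_inter_preimage_symm hD.open0
  refine ⟨fun z hz => (hD.e0z _ (hmem z hz)).2.2, ?_, ?_⟩
  · have hloc := hH.1.loc false D.e0 hD.e0a
    have hG := hGC 3 (Metric.ball 0 (R + 2)) (D.e0.target ∩ D.e0.symm ⁻¹' D.U0) (fun z => z / (a : ℂ)) _ _ _
      (fun z => ‖D.η0 D.e0 (D.e0.symm (z / a))‖ ^ 2) Metric.isOpen_ball hopen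
      (differentiableOn_id.div_const _)
      (fun z hz => ⟨hD.e0t (hmem z hz), (hD.e0z _ (hmem z hz)).1⟩) hloc
      (by
        intro z hz
        show ‖D.η0 D.e0 (D.e0.symm (z / a))‖ ^ 2 =
          ‖(a : ℂ) * D.η0 D.e0 (D.e0.symm (z / a))‖ ^ 2 * ‖deriv (fun z : ℂ => z / (a : ℂ)) z‖ ^ 2
        have hd : deriv (fun z : ℂ => z / (a : ℂ)) z = 1 / a := by
          rw [deriv_div_const]
          simp
        rw [hd, norm_mul, norm_div, norm_one]
        have : ‖(a : ℂ)‖ ≠ 0 := norm_ne_zero_iff.mpr haC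
        field_simp)
    refine ⟨hG.pos, hG.smooth, fun z hz => ?_⟩
    have h := hG.eq z hz
    have h2 := hA _ (hD.e0z _ (hmem z hz)).1
    rw [(hD.e0z _ (hmem z hz)).2.1, mul_div_cancel₀ _ haC] at h2
    simp only [h2] at h
    exact h
  · rw [hA _ hD.x0mem, hD.x0z, mul_zero]

end

end Pool.Agent.DL
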